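import Mathlib
import Pool.Agent.H.MP_94cdcb_an.B

open Set

namespace Pool.Agent.Results.MP_349854_an.No

variable {X : Type} [NormedAddCommGroup X] [NormedSpace ℝ X]

def Slice (A : Set X) (f : X →L[ℝ] ℝ) (ε : ℝ) : Set X := {x ∈ A | sSup (f '' A) - ε < f x}

def SCD (A : Set X) : Prop := ∃ (f : ℕ → X →L[ℝ] ℝ) (ε : ℕ → ℝ), (∀ n, f n ≠ 0 ∧ 0 < ε n) ∧
  ∀ B : Set X, (∀ n, (B ∩ Slice A (f n) (ε n)).Nonempty) → A ⊆ closure (convexHull ℝ B)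

def CountablePiBasis (T : Type) [TopologicalSpace T] : Prop :=
  ∃ P : Set (Set T), P.Countable ∧ (∀ O ∈ P, IsOpen O ∧ O.Nonempty) ∧
    ∀ V : Set T, IsOpen V → V.Nonempty → ∃ O ∈ P, O ⊆ V

theorem result : ∃ (X : Type) (_ : NormedAddCommGroup X) (_ : NormedSpace ℝ X) (_ : CompleteSpace X)
    (U : Set X), U.Nonempty ∧ IsClosed U ∧ Convex ℝ U ∧ Bornology.IsBounded U ∧ SCD U ∧
      ¬ CountablePiBasis (toWeakSpace ℝ X '' U : Set (WeakSpace ℝ X)) := by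
  open Pool.Agent.H.MP_94cdcb_an in
  refine ⟨Pool.Agent.H.MP_94cdcb_an.X, inferInstance, inferInstance, inferInstance, U,
    ⟨_, r_mem (.inl ⊥)⟩, isClosed_closure, U_convex, U_bdd, U_scd, ?_⟩
  rintro ⟨P, h1, h2, h3⟩
  obtain ⟨O0, hO0, -⟩ := h3 univ isOpen_univ
    ⟨⟨_, mem_image_of_mem _ (Pool.Agent.H.MP_94cdcb_an.r_mem (.inl ⊥))⟩, mem_univ _⟩
  obtain ⟨g, rfl⟩ := h1.exists_eq_range ⟨O0, hO0⟩
  choose O o1 o2 using fun n => isOpen_induced_iff.1 (h2 _ (mem_range_self n)).1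
  obtain ⟨V, v1, ⟨x, x1, x2⟩, v3⟩ := Pool.Agent.H.MP_94cdcb_an.no_base O o1 fun n => by
    obtain ⟨⟨_, x, x1, rfl⟩, hx⟩ := (h2 _ (mem_range_self n)).2
    rw [← o2 n] at hx
    exact ⟨x, x1, hx⟩
  obtain ⟨_, ⟨n, rfl⟩, hn⟩ := h3 (Subtype.val ⁻¹' V) (v1.preimage continuous_subtype_val)
    ⟨⟨_, x, x1, rfl⟩, x2⟩
  obtain ⟨y, y1, y2, y3⟩ := v3 n
  rw [← o2 n] at hn
  exact y3 (hn (a := ⟨_, y, y1, rfl⟩) y2)

end Pool.Agent.Results.MP_349854_an.No
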